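import Pool.Agent.Lib.MP_6bc78b_nt.SW.Iface

/-! Project MS (MP_6bc78b_nt), part A5, module LEIB: the Leibniz rule for the coefficients
`χ(n) (log n)^(k+1)`. -/

set_option autoImplicit false

open Complex Finset DirichletCharacter

namespace Pool.Agent.Lib.MP_6bc78b_nt.SW

namespace H38

theorem log_pow_le (j : ℕ) {δ : ℝ} (hδ : 0 < δ) {n : ℕ} (hn : n ≠ 0) :
    Real.log n ^ j ≤ (1 / (δ / (j + 1))) ^ j * (n : ℝ) ^ δ := by
  obtain ⟨e, he⟩ : ∃ e : ℝ, e = δ / (j + 1) := ⟨_, rfl⟩
  have he0 : 0 < e := by rw [he]; positivity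
  have hn1 : (1 : ℝ) ≤ n := by exact_mod_cast Nat.one_le_iff_ne_zero.2 hn
  have hl0 : 0 ≤ Real.log n := Real.log_nonneg hn1
  have h1 : Real.log n ≤ (n : ℝ) ^ e / e := Real.log_le_rpow_div (by linarith) he0
  have h2 : Real.log n ^ j ≤ ((n : ℝ) ^ e / e) ^ j := pow_le_pow_left₀ hl0 h1 j
  refine h2.trans ?_
  rw [← he, div_pow, ← Real.rpow_mul_natCast (by linarith) e j]
  have h3 : (n : ℝ) ^ (e * j) ≤ (n : ℝ) ^ δ := by
    apply Real.rpow_le_rpow_of_exponent_le hn1
    have h4 : e * (j + 1) = δ := by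
      rw [he]; field_simp
    linarith
  rw [one_div, inv_pow, div_eq_mul_inv, mul_comm]
  exact mul_le_mul_of_nonneg_left h3 (by positivity)

theorem summable_of_le {f : ℕ → ℂ} {s : ℂ} (hs : 1 < s.re) (j : ℕ)
    (h : ∀ n : ℕ, n ≠ 0 → ‖f n‖ ≤ Real.log n ^ j) : LSeriesSummable f s := by
  obtain ⟨δ, hδ⟩ : ∃ δ : ℝ, δ = (s.re - 1) / 2 := ⟨_, rfl⟩
  have hδ0 : 0 < δ := by rw [hδ]; linarith
  refine LSeriesSummable_of_le_const_mul_rpow (x := 1 + δ) (by rw [hδ]; linarith)
    ⟨(1 / (δ / (j + 1))) ^ j, fun n hn => ?_⟩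
  rw [show 1 + δ - 1 = δ by ring]
  exact (h n hn).trans (log_pow_le j hδ0 hn)

theorem chiLog_summable {q : ℕ} (χ : DirichletCharacter ℂ q) (j : ℕ) {s : ℂ} (hs : 1 < s.re) :
    LSeriesSummable (chiLog χ j) s := by
  apply summable_of_le hs j
  intro n hn
  unfold chiLog
  have hl0 : 0 ≤ Real.log n := Real.log_natCast_nonneg n
  rw [norm_mul, norm_real, Real.norm_of_nonneg (by positivity)]
  calc ‖χ (n : ZMod q)‖ * Real.log n ^ j ≤ 1 * Real.log n ^ j :=
        mul_le_mul_of_nonneg_right (χ.norm_le_one _) (by positivity)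
    _ = Real.log n ^ j := one_mul _

theorem vmLog_summable {q : ℕ} (χ : DirichletCharacter ℂ q) (j : ℕ) {s : ℂ} (hs : 1 < s.re) :
    LSeriesSummable (vmLog χ j) s := by
  apply summable_of_le hs (j + 1)
  intro n hn
  unfold vmLog
  have hl0 : 0 ≤ Real.log n := Real.log_natCast_nonneg n
  have hv0 : 0 ≤ ArithmeticFunction.vonMangoldt n := ArithmeticFunction.vonMangoldt_nonneg
  rw [norm_mul, norm_real, Real.norm_of_nonneg (by positivity)]
  calc ‖χ (n : ZMod q)‖ * (ArithmeticFunction.vonMangoldt n * Real.log n ^ j) ≤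
        1 * (Real.log n * Real.log n ^ j) := by
          apply mul_le_mul (χ.norm_le_one _) _ (by positivity) zero_le_one
          exact mul_le_mul_of_nonneg_right ArithmeticFunction.vonMangoldt_le_log (by positivity)
    _ = Real.log n ^ (j + 1) := by ring

theorem coeff_eq {q : ℕ} (χ : DirichletCharacter ℂ q) (k : ℕ) {n : ℕ} (hn : n ≠ 0) :
    chiLog χ (k + 1) n = ∑ j ∈ range (k + 1),
      (k.choose j : ℂ) * LSeries.convolution (vmLog χ j) (chiLog χ (k - j)) n := by
  simp only [LSeries.convolution_def, Finset.mul_sum]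
  rw [Finset.sum_comm]
  have h1 : ∀ p ∈ n.divisorsAntidiagonal,
      ∑ j ∈ range (k + 1), (k.choose j : ℂ) * (vmLog χ j p.1 * chiLog χ (k - j) p.2) =
        χ (n : ZMod q) * ((ArithmeticFunction.vonMangoldt p.1 * Real.log n ^ k : ℝ) : ℂ) := by
    intro p hp
    rw [Nat.mem_divisorsAntidiagonal] at hp
    obtain ⟨hp1, -⟩ := hp
    have ha : p.1 ≠ 0 := by
      intro h; rw [h] at hp1; simp at hp1; exact hn hp1.symm
    have hb : p.2 ≠ 0 := by
      intro h; rw [h] at hp1; simp at hp1; exact hn hp1.symm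
    have hlog : Real.log n = Real.log p.1 + Real.log p.2 := by
      rw [← hp1, Nat.cast_mul, Real.log_mul (by exact_mod_cast ha) (by exact_mod_cast hb)]
    have hχ : χ (n : ZMod q) = χ (p.1 : ZMod q) * χ (p.2 : ZMod q) := by
      rw [← hp1, Nat.cast_mul, map_mul]
    rw [hlog, hχ, add_pow]
    push_cast
    rw [Finset.mul_sum, Finset.mul_sum]
    apply Finset.sum_congr rfl
    intro j _
    unfold vmLog chiLog
    push_cast
    ring
  rw [Finset.sum_congr rfl h1, ← Finset.mul_sum]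
  unfold chiLog
  congr 1
  rw [← Complex.ofReal_sum, ← Finset.sum_mul]
  have h2 : ∑ p ∈ n.divisorsAntidiagonal, ArithmeticFunction.vonMangoldt p.1 = Real.log n := by
    have h3 := Nat.sum_divisorsAntidiagonal (n := n)
      (f := fun d _ => ArithmeticFunction.vonMangoldt d)
    rw [h3]
    exact ArithmeticFunction.vonMangoldt_sum
  rw [h2]
  norm_num
  ring

end H38

theorem leib : LeibStatement := by
  intro q _ χ k s hs
  refine ⟨fun j => ⟨H38.chiLog_summable χ j hs, H38.vmLog_summable χ j hs⟩, ?_⟩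
  have h1 : LSeries (chiLog χ (k + 1)) s =
      LSeries (∑ j ∈ range (k + 1), (k.choose j : ℂ) •
        LSeries.convolution (vmLog χ j) (chiLog χ (k - j))) s := by
    apply LSeries_congr
    intro n hn
    rw [H38.coeff_eq χ k hn, Finset.sum_apply]
    rfl
  have hconv : ∀ j : ℕ, LSeriesSummable (LSeries.convolution (vmLog χ j) (chiLog χ (k - j))) s :=
    fun j => (LSeriesHasSum.convolution (H38.vmLog_summable χ j hs).LSeriesHasSum
      (H38.chiLog_summable χ (k - j) hs).LSeriesHasSum).LSeriesSummable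
  rw [h1, LSeries_sum fun j _ => (hconv j).smul _]
  apply Finset.sum_congr rfl
  intro j _
  rw [LSeries_smul, LSeries_convolution' (H38.vmLog_summable χ j hs)
    (H38.chiLog_summable χ (k - j) hs)]
  ring

end Pool.Agent.Lib.MP_6bc78b_nt.SW
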